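import Pool.Agent.V8H3.GenK

/-!
# Vojta's inequality for almost all points of degree at most `r` on every variety

`K` is a number field and `X ⊂ ℙ^m` any projective variety over `K` of positive dimension, with any
divisor `D` (or closed subscheme). All heights, local heights and discriminants are relative to `K`,
normalised as in the problem.

The upper bound `d_K(x) ≤ (2 d - 2) h(x) + O(1)` for the points of degree `d` is well known. We show
that for almost all points `x` in `X(K̄)` with `[K(x) : K] ≤ r`, ordered by height, the logarithmic
discriminant is almost as large: there is `δ > 0` which depends only on `X` such that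

`d_K(x) ≥ (δ r / (log r)²) h(x)`

for all points of degree at most `r` and height at most `U` with the exception of a proportion of at
most `C exp(- δ r² U)`, for all large `r`; there are at least `exp(δ r² U)` points if `U` is large.
So for `r ≥ r₀(X, D)` Vojta's inequality holds, with `ε = 0`, for ALL these points: with a constant
`B` which depends only on `D` and `κ` we have

`κ h(x) + ∑_{w ∈ T} λ_D(x, w) ≤ d_K(x) + B`

for all finite sets `T` of places of `K(x)`, in particular for the places above any finite set `S` of
places of `K`; here `κ` is any real number, for example one with `h_{K_X} ≤ κ h + O(1)`, and `r₀` is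
given by `(κ + e) (log r₀)² ≤ δ r₀`, where `D` is defined by forms of degree `e`.

The same is proved for the integral points on all affine varieties `V = X ∖ {x_i = 0}` of positive
dimension. These are sparse among all points, and for them the sum of the local heights of
`{x_i = 0}` is as large as possible. If the denominator `n N_i` is allowed, where `N_i` depends on `V`
and `n ≥ 1` is arbitrary, there are at least `exp(δ r² U)` integral points of degree at most `r` and
height at most `U`, and Vojta's inequality holds for all of them with the exception of a proportion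
of at most `C exp(- δ r² U)`.

Proof. A point with `d_K(x) < G h(x)` of degree `j` and height at most `U` is given by its field, of
discriminant at most `exp(j (G U + log |disc K|))`, and `m` elements of this field of height at most
`U`. By the theorem of Lemke Oliver and Thorne (in the starting files) there are at most
`exp(j (G e(j) + (2 + ν) m) U)` such points, with `e(j) = O((log j)²)`. On the other hand, by
Noether's normalisation lemma there is a finite map from the affine variety to a line, and there are
at least `exp(j² U / [K : ℚ])` algebraic integers of degree `j` and height at most `U` (Eisenstein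
polynomials).
-/

set_option autoImplicit false

namespace Pool.Agent.Results.MP_71c16a_nt.AlmostAllPointsOfBoundedDegree

open NumberField Module Height
open scoped LinearAlgebra.Projectivization

/-- the algebraic points of `ℙ^m` -/
abbrev Point (K : Type) [Field K] (m : ℕ) : Type :=
  ℙ (AlgebraicClosure K) (Fin (m + 1) → AlgebraicClosure K)

section

variable {K : Type} [Field K] {m : ℕ}

/-- the field `K(x)`, generated by the ratios of the homogeneous coordinates of `x` -/
noncomputable def residueField (x : Point K m) : IntermediateField K (AlgebraicClosure K) :=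
  IntermediateField.adjoin K (Set.range fun p : Fin (m + 1) × Fin (m + 1) => x.rep p.1 / x.rep p.2)

theorem exists_index (x : Point K m) : ∃ i, x.rep i ≠ 0 := Function.ne_iff.1 x.rep_nonzero

/-- an index `i` with `x_i ≠ 0` -/
noncomputable def index (x : Point K m) : Fin (m + 1) := (exists_index x).choose

/-- homogeneous coordinates of `x` in `K(x)` -/
noncomputable def coordinates (x : Point K m) (i : Fin (m + 1)) : residueField x :=
  ⟨x.rep i / x.rep (index x), IntermediateField.subset_adjoin _ _ ⟨(i, index x), rfl⟩⟩

/-- the algebraic points of the projective variety with the equations `p = 0`, `p ∈ I` -/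
def variety (K : Type) [Field K] (m : ℕ) (I : Set (MvPolynomial (Fin (m + 1)) K)) :
    Set (Point K m) := {x | ∀ p ∈ I, MvPolynomial.aeval x.rep p = 0}

/-- the points of the affine variety `X ∖ {x_i = 0}` whose affine coordinates `x_l / x_i` become
integral over `ℤ` when multiplied by `N` -/
def integralPoints (K : Type) [Field K] (m : ℕ) (I : Set (MvPolynomial (Fin (m + 1)) K))
    (i : Fin (m + 1)) (N : ℕ) : Set (Point K m) :=
  {x | x ∈ variety K m I ∧ x.rep i ≠ 0 ∧
    ∀ l, IsIntegral ℤ ((N : AlgebraicClosure K) * (x.rep l / x.rep i))}

end

/-- the local height `log (max_i |x_i|_v ^ e / max_j |F_j(x)|_v)` of `x` relative to the closed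
subscheme `F_0 = … = F_(q-1) = 0`, where the `F_j` are forms of degree `e` -/
noncomputable def localHeight {K L : Type} [Field K] [Field L] [Algebra K L] {m q : ℕ}
    (F : Fin q → MvPolynomial (Fin (m + 1)) K) (e : ℕ) (x : Fin (m + 1) → L) (v : L → ℝ) : ℝ :=
  Real.log ((⨆ i, v (x i)) ^ e / ⨆ j, v (MvPolynomial.aeval x (F j)))

section

variable {K : Type} [Field K] [NumberField K] {m : ℕ}

noncomputable instance (x : Point K m) : NumberField (residueField x) :=
  Pool.Agent.V8H3.Gen.nf x

/-- the degree of `x` over `K` -/
noncomputable def degree (x : Point K m) : ℕ := finrank K (residueField x)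

/-- the height of `x` relative to `K` -/
noncomputable def height (x : Point K m) : ℝ :=
  logHeight (coordinates x) / finrank K (residueField x)

/-- the logarithmic discriminant `d_K(x) = log |disc K(x)| / [K(x) : K] - log |disc K|` -/
noncomputable def logDisc (x : Point K m) : ℝ :=
  Real.log |(discr (residueField x) : ℝ)| / finrank K (residueField x) -
    Real.log |(discr K : ℝ)|

/-- the sum of the local heights relative to `F = 0` at the infinite places in `T₁` and the finite
places in `T₂` of `K(x)`, relative to `K` -/
noncomputable def proximity {q : ℕ} (F : Fin q → MvPolynomial (Fin (m + 1)) K) (e : ℕ)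
    (x : Point K m) (T₁ : Finset (InfinitePlace (residueField x)))
    (T₂ : Finset (FinitePlace (residueField x))) : ℝ :=
  (∑ w ∈ T₁, (w.mult : ℝ) * localHeight F e (coordinates x) w +
    ∑ u ∈ T₂, localHeight F e (coordinates x) u) / finrank K (residueField x)

/-- the points of `S` of degree at most `r` and height at most `U` -/
def upTo (S : Set (Point K m)) (r : ℕ) (U : ℝ) : Set (Point K m) :=
  {x | x ∈ S ∧ degree x ≤ r ∧ height x ≤ U}

/-- among the points of `S` of degree at most `r` and height at most `U` the proportion of those in
`B` is at most `C exp(- δ r² U)` -/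
def Rare (δ : ℝ) (S B : Set (Point K m)) (r : ℕ) : Prop :=
  ∃ C : ℝ, 0 < C ∧ ∀ U : ℝ, 0 ≤ U → ((upTo (S ∩ B) r U).ncard : ℝ) ≤
    C * Real.exp (-(δ * (r : ℝ) ^ 2 * U)) * ((upTo S r U).ncard : ℝ)

end

/-- **Vojta's inequality for almost all points of bounded degree on every variety.** Let `K` be a
number field and `X ⊂ ℙ^m` any closed subset defined over `K` of positive dimension (with infinitely
many algebraic points). There are `δ > 0`, `r₁` and `N_i ≥ 1` with the following properties. Let `S`
be the set of all algebraic points of `X`, or the set of the integral points, with denominators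
`n N_i`, of the affine variety `X ∖ {x_i = 0}`, if this has positive dimension; `n ≥ 1` is arbitrary.
Then for all `r ≥ r₁` the set `S` contains only finitely many points of degree at most `r` over `K`
and height at most `U`, and at least `exp(δ r² U)` if `U` is large, and all these points, with the
exception of a proportion of at most `C exp(- δ r² U)`, satisfy `d_K(x) ≥ (δ r / (log r)²) h(x)`.

Let `D` be the closed subscheme of `ℙ^m` defined by forms `F_j` of degree `e` over `K` and let `κ` be
a real number. Then there is a constant `B` such that for all `r ≥ r₁` with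
`(κ + e) (log r)² ≤ δ r` all points `x` of `S` of degree at most `r` and height at most `U` outside
of `D`, with the exception of a proportion of at most `C exp(- δ r² U)`, satisfy
`κ h(x) + ∑_{w ∈ T} λ_D(x, w) ≤ d_K(x) + B` for all finite sets `T` of places of `K(x)`. -/
theorem result (K : Type) [Field K] [NumberField K] (m : ℕ)
    (I : Set (MvPolynomial (Fin (m + 1)) K)) (hI : ∀ p ∈ I, ∃ n, p.IsHomogeneous n)
    (hX : (variety K m I).Infinite) :
    ∃ (δ : ℝ) (r₁ : ℕ) (N : Fin (m + 1) → ℕ), 0 < δ ∧ (∀ i, 1 ≤ N i) ∧
      ∀ S : Set (Point K m), (S = variety K m I ∨ ∃ (i : Fin (m + 1)) (n : ℕ), n ≠ 0 ∧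
          {x | x ∈ variety K m I ∧ x.rep i ≠ 0}.Infinite ∧
          S = integralPoints K m I i (n * N i)) →
        -- large discriminants
        (∀ r : ℕ, r₁ ≤ r → (∀ U : ℝ, (upTo S r U).Finite) ∧
          (∃ C : ℝ, ∀ U : ℝ, C ≤ U →
            Real.exp (δ * (r : ℝ) ^ 2 * U) ≤ ((upTo S r U).ncard : ℝ)) ∧
          Rare δ S {x | logDisc x < δ * r / (Real.log r) ^ 2 * height x} r) ∧
        -- Vojta's inequality
        ∀ (q e : ℕ) (F : Fin q → MvPolynomial (Fin (m + 1)) K), (∀ j, (F j).IsHomogeneous e) →
          ∀ κ : ℝ, ∃ B : ℝ, ∀ r : ℕ, r₁ ≤ r → (κ + e) * (Real.log r) ^ 2 ≤ δ * r →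
            Rare δ S {x | (∃ j, MvPolynomial.aeval x.rep (F j) ≠ 0) ∧
              ∃ (T₁ : Finset (InfinitePlace (residueField x)))
                (T₂ : Finset (FinitePlace (residueField x))),
                logDisc x + B < κ * height x + proximity F e x T₁ T₂} r := by
  obtain ⟨δ, r₁, N, hδ, hN, h⟩ := Pool.Agent.V8H3.Gen.final K m I hI hX
  refine ⟨δ, r₁, N, hδ, hN, fun S hS => ⟨fun r hr => ⟨fun U => ?_, ?_⟩, ?_⟩⟩
  · exact Pool.Agent.V8H3.Gen.upTo_finite S r U
  · exact (h S hS).1 r hr
  · exact (h S hS).2

end Pool.Agent.Results.MP_71c16a_nt.AlmostAllPointsOfBoundedDegree
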