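import Pool.Agent.V8H31.AC.Prox
import Pool.Agent.N753.AC.Main
import Pool.Agent.N747.AC.Ram
import Pool.Agent.N61.AC.Loc
import Pool.Agent.N753.SU.Od
import Pool.Agent.N73.SU.SU_RM
import Pool.Agent.N222.SU_OM
import Pool.Agent.N199.SU_B
import Pool.Agent.N123.OD1
import Pool.Agent.N692.SU.OD2
import Pool.Agent.N478.SU.OD3
import Pool.Agent.N752.HY.Ext

/-!
# Vojta's inequality for closed points of bounded degree: all covers of products of lines at once

Let `K` be a number field, `m ≥ 1`, `B = (ℙ¹)^m`. Let `X` be a normal projective variety over `K` and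
`π : X → B` a finite morphism of degree `N`. The ring `A` of the functions on `X` which are regular
over the affine space `{x_i ≠ ∞}` is a normal domain, finite and of rank `N` over `K[x_1, …, x_m]`.
Let `F_1, …, F_r` be different prime divisors of the affine space (components of the branch divisor,
or images of components of `D`), given by irreducible polynomials of total degree (the sum of the
degrees in the variables) at most five; their number, their singularities and their intersections
are arbitrary. Let `D` be a reduced effective divisor on `X` all of whose components are above the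
`F_j = 0`; let `Y_j` be a finite subset of `A` such that the part of `D` above `F_j = 0` is given by
the equations `F_j = 0`, `y = 0` for `y ∈ Y_j`. Let `s_j` be the degree over `F_j = 0` of the union of
the prime divisors above `F_j = 0` which are NOT components of `D` (for `D = 0`: the number of the
sheets of the reduced preimage).

If `e_V` denotes ramification indices and `R` is the part above the `F_j = 0` of the ramification
divisor `∑ (e_V - 1) V`, the push-forward of `R + D` is `∑ (N - s_j) {F_j = 0}`. So if `P` is a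
closed point of `X` above `x ∈ K^m` whose residue field `L` has degree `N` over `K` (by Hilbert's
irreducibility theorem this is so for almost all `x`), then, the conjugates of `P` being the points
above `x`, `h_{R + D}(P) = ∑_i (∑_j (1 - s_j / N) deg_i F_j) h(x_i) + O(1)`. Likewise let `I ≠ 0` be
an ideal sheaf on `X` (for example the ideal of an effective divisor) and let `R₁ ≠ 0` be a polynomial
whose inverse image is a section of the corresponding twist of `I` (take the norm of a section of a
twist of `I`). Then the proximity function `m_{S'}(I, P)` is at most `m_{S'}(R₁, x) + O(1)`.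

There is ONE set `E` of density zero in `K^m` (ordered by the height) such that for ALL `X`, `π`,
`F_j`, `D`, `I`, `S'`, all multiplicities `M`, all ideals `(F'_l, G'_l)` of codimension two of the
affine space and all `Λ`, for `ε > 0`, all closed points `P` of degree `N` above points `x ∉ E`
satisfy, for ALL finite sets `S` of primes, with a constant `C` which does not depend on `P` and `S`,

`h_{R + D}(P) + M m_{S'}(I, P) + Λ ∑ h_{(F'_l, G'_l)}(x)`
`  ≤ N_S^(1)(D, P) + d(P) + ε ∑ h(x_i) + ∑_{p ∈ S} log p + C`.

As `K_X = R + R' - 2 π^* (1, …, 1)`, where `R'` is the rest of the ramification divisor, this contains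
Vojta's inequality `∑_{v ∈ S'} λ_{D', v}(P) + h_{K_X}(P) ≤ d(P) + ε h_A(P) + O(1)` for ALL effective
divisors `D'` and all closed points `P` of degree `N` above the `x ∉ E`, whenever the push-forward of
`R'` has multidegree at most `(2 N, …, 2 N)`, in particular if all components of the branch divisor
which are not of the form `x_i = ∞` have total degree at most five. The term with `Λ` bounds the
heights relative to all divisors which are contracted to subsets of codimension at least two of the
affine space.

The same for covers of projective spaces, with forms `F_j` of degree at most two and orbits of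
conjugate hyperplanes, is in the starting files (CoversOfProjectiveSpace, MP_651af7_nt). Here
components of total degree up to five are allowed, for example curves of bidegree `(2, 3)` in
`ℙ¹ × ℙ¹`.

Proof. At almost all points `x` the truncated counting function of `F_j = 0` is at least
`∑ (deg_i F_j - ε) h(x_i)` (starting files, ProductsOfLines, MP_9ec3f0_nt). Hence `x` meets `F_j = 0`
at almost all primes `v` (weighted with `log N(v)`) with multiplicity one, and outside a given subset
of codimension two. There `A` is, locally, regular, and the norm of a local equation of the union of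
the prime divisors above `F_j = 0` which are not in `D` has order `s_j`; this bounds the number of the
primes of `L` above `v` at which `P` does not meet `D`, and so from below the different of `L` above
`v` (`Pool.Agent.N753.AC.cover` of the starting files). The proximity functions of all divisors are
small outside of one set of density zero (`Pool.Agent.V8H31.AC.all_prox`).
-/

set_option autoImplicit false

namespace Pool.Agent.Results.MP_71c16a_nt.CoversOfProductsOfLines

open NumberField IsDedekindDomain Module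

/-- The union of the prime divisors of `Spec A` above the prime divisor `F = 0` of `Spec R` on which
not all elements of `Y` vanish has degree at most `s` over `F = 0`: after inverting an element `g` of
`R` which is not divisible by `F`, the `R`-module `A / {f | Y f ⊆ √(F A)}` is generated by `s`
elements. -/
def SheetsLE {R : Type} (A : Type) [CommRing R] [CommRing A] [Algebra R A] (F : R) (Y : Finset A)
    (s : ℕ) : Prop :=
  ∃ g : R, ¬ F ∣ g ∧ ∃ a : Fin s → A, ∀ b : A, ∃ r : Fin s → R, ∀ y ∈ Y,
    y * (algebraMap R A g * b - ∑ l, algebraMap R A (r l) * a l) ∈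
      (Ideal.span {algebraMap R A F}).radical

/-- the total degree of `F`, as a divisor of `(ℙ¹)^m`: the sum of its degrees in the variables -/
noncomputable def totalDegree {K : Type} [Field K] {m : ℕ} (F : MvPolynomial (Fin m) K) : ℕ :=
  ∑ i, F.degreeOf i

/-- the absolute logarithmic height of `x ∈ K` -/
noncomputable def height {K : Type} [Field K] [NumberField K] (x : K) : ℝ :=
  Height.logHeight₁ x / finrank ℚ K

/-- the local height `log (∏ max(1, |x_i|) ^ deg_i G / |G(x)|)` of the point `x` relative to the divisor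
`G = 0` of `(ℙ¹)^m`, for the absolute value `v` -/
noncomputable def localHeight {K : Type} [Field K] {m : ℕ} (G : MvPolynomial (Fin m) K)
    (x : Fin m → K) (v : K → ℝ) : ℝ :=
  Real.log ((∏ i, max (v (x i)) 1 ^ G.degreeOf i) / v (MvPolynomial.eval x G))

open Classical in
/-- the proximity function `m_{S'}(G, x)`: the sum of the local heights relative to `G = 0` at the
infinite places and at the primes above the primes of `S'`, divided by `[K : ℚ]` -/
noncomputable def proximity {K : Type} [Field K] [NumberField K] {m : ℕ} (S' : Finset ℕ)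
    (G : MvPolynomial (Fin m) K) (x : Fin m → K) : ℝ :=
  (∑ w : InfinitePlace K, (w.mult : ℝ) * localHeight G x w +
    ∑ᶠ v : HeightOneSpectrum (𝓞 K), if ∃ p ∈ S', (p : 𝓞 K) ∈ v.asIdeal then
      localHeight G x (FinitePlace.mk v) else 0) / finrank ℚ K

/-- the local height at the place `v` of the point `x` relative to the ideal `(F, G)` -/
noncomputable def idealLocal {K : Type} [Field K] {m : ℕ}
    (F G : MvPolynomial (Fin m) K) (x : Fin m → K) (v : K → ℝ) : ℝ :=
  -Real.log (max (v (MvPolynomial.eval x F) / ∏ i, (max 1 (v (x i))) ^ F.degreeOf i)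
    (v (MvPolynomial.eval x G) / ∏ i, (max 1 (v (x i))) ^ G.degreeOf i))

/-- the height `h_{(F, G)}(x)` of the point `x` of `(ℙ¹)^m` relative to the ideal `(F, G)`: the sum
over all places of the local heights (if `F` and `G` do not both vanish at `x`), divided by
`[K : ℚ]` -/
noncomputable def idealHeight {K : Type} [Field K] [NumberField K] {m : ℕ}
    (F G : MvPolynomial (Fin m) K) (x : Fin m → K) : ℝ :=
  (∑ w : InfinitePlace K, (w.mult : ℝ) * idealLocal F G x w +
    ∑ᶠ v : HeightOneSpectrum (𝓞 K), idealLocal F G x (FinitePlace.mk v)) / finrank ℚ K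

/-- the prime `w` of `L` is not above a prime number in `S` -/
def Outside {L : Type} [Field L] [NumberField L] (S : Finset ℕ) (w : HeightOneSpectrum (𝓞 L)) :
    Prop := ∀ p ∈ S, (p : 𝓞 L) ∉ w.asIdeal

open Classical in
/-- the truncated counting function `N_S^(1)(D, P)` of the point `P` given by the homomorphism
`φ : A → L` above `x`: the sum of `log N(w) / [L : ℚ]` over the primes `w` of `L`, not above primes in
`S`, at which `x` is integral and `P` meets `D`: for some `j` one has `|F_j(x)|_w < 1` and
`|φ(y)|_w < 1` for all `y ∈ Y_j` -/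
noncomputable def truncated {K : Type} [Field K] [NumberField K] {m r : ℕ} {A : Type} [CommRing A]
    (S : Finset ℕ) (F : Fin r → MvPolynomial (Fin m) K) (Y : Fin r → Finset A) (x : Fin m → K)
    {L : Type} [Field L] [NumberField L] [Algebra K L] (φ : A →+* L) : ℝ :=
  (∑ᶠ w : HeightOneSpectrum (𝓞 L),
    if Outside S w ∧ (∀ i, FinitePlace.mk w (algebraMap K L (x i)) ≤ 1) ∧
      ∃ j, FinitePlace.mk w (algebraMap K L (MvPolynomial.eval x (F j))) < 1 ∧
        ∀ y ∈ Y j, FinitePlace.mk w (φ y) < 1
    then Real.log (Ideal.absNorm w.asIdeal) else 0) / finrank ℚ L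

/-- the (absolute) logarithmic discriminant `log |disc L| / [L : ℚ]` -/
noncomputable def logDisc (L : Type) [Field L] [NumberField L] : ℝ :=
  Real.log |(NumberField.discr L : ℝ)| / finrank ℚ L

/-- `P` (given by `φ : A → L`) is a closed point of degree `N`, the rank of `A`, above `x` -/
def PointAbove {K : Type} [Field K] {m : ℕ} {A : Type} [CommRing A]
    [Algebra (MvPolynomial (Fin m) K) A] (x : Fin m → K) {L : Type} [Field L] [Algebra K L]
    (φ : A →+* L) : Prop :=
  Function.Surjective φ ∧ finrank K L = finrank (MvPolynomial (Fin m) K) A ∧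
    ∀ f : MvPolynomial (Fin m) K, φ (algebraMap (MvPolynomial (Fin m) K) A f) =
      algebraMap K L (MvPolynomial.eval x f)

open Pool.Agent.N753.SU in
theorem stmOD : StmOD :=
  Pool.Agent.N753.SU.stmOD (Pool.Agent.N692.SU.od2 Pool.Agent.N123.OD1.od1)
    Pool.Agent.N478.SU.stmOD3

open Pool.Agent.N753.SU in
theorem stmLM : StmLM :=
  Pool.Agent.N753.SU.stmLM Pool.Agent.N348.SU.um Pool.Agent.N348.SU.zm Pool.Agent.N199.SU.stmB1
    Pool.Agent.N199.SU.stmB2 Pool.Agent.N199.SU.stmB3

open Pool.Agent.N753.AC in
/-- the primes of `S` -/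
theorem hit_sum {K : Type} [Field K] [NumberField K] {m r : ℕ} {A : Type} [CommRing A]
    (F : Fin r → MvPolynomial (Fin m) K) (Y : Fin r → Finset A) {x : Fin m → K}
    (hx : ∀ j, MvPolynomial.eval x (F j) ≠ 0) {L : Type} [Field L] [NumberField L] [Algebra K L]
    (φ : A →+* L) (S : Finset ℕ) (hS : ∀ p ∈ S, p.Prime) [∀ w, Decidable (Hit (K := K) ∅ F Y x φ w)] :
    (∑ᶠ w : HeightOneSpectrum (𝓞 L), if Hit ∅ F Y x φ w then
      Real.log (Ideal.absNorm w.asIdeal : ℝ) else 0) / finrank ℚ L ≤
        truncated S F Y x φ + ∑ p ∈ S, Real.log (p : ℝ) := by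
  classical
  have hL0 : (0 : ℝ) < finrank ℚ L := by exact_mod_cast finrank_pos
  have hfin := hit_finite (K := K) ∅ F Y hx φ
  have hiff : ∀ w, Hit (K := K) ∅ F Y x φ w ↔
      (∀ i, FinitePlace.mk w (algebraMap K L (x i)) ≤ 1) ∧
      ∃ j, FinitePlace.mk w (algebraMap K L (MvPolynomial.eval x (F j))) < 1 ∧
        ∀ y ∈ Y j, FinitePlace.mk w (φ y) < 1 := by
    intro w
    unfold Hit
    constructor
    · rintro ⟨-, h⟩
      exact h
    · intro h
      exact ⟨fun v hv => absurd hv (Finset.notMem_empty v), h⟩
  have e1 : truncated S F Y x φ =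
      (∑ w ∈ hfin.toFinset, if Outside S w then Real.log (Ideal.absNorm w.asIdeal : ℝ) else 0) /
        finrank ℚ L := by
    unfold truncated
    congr 1
    rw [finsum_eq_sum_of_support_subset (s := hfin.toFinset)]
    · refine Finset.sum_congr rfl fun w hw => ?_
      have hw1 : Hit (K := K) ∅ F Y x φ w := (Set.Finite.mem_toFinset hfin).1 hw
      have hw' := (hiff w).1 hw1
      exact if_congr ⟨fun h => h.1, fun h => ⟨h, hw'.1, hw'.2⟩⟩ rfl rfl
    · intro w hw
      rw [Finset.mem_coe, Set.Finite.mem_toFinset]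
      by_contra hc
      exact hw (if_neg fun h => hc ((hiff w).2 ⟨h.2.1, h.2.2⟩))
  have e2 : (∑ᶠ w : HeightOneSpectrum (𝓞 L), if Hit ∅ F Y x φ w then
      Real.log (Ideal.absNorm w.asIdeal : ℝ) else 0) =
      ∑ w ∈ hfin.toFinset, Real.log (Ideal.absNorm w.asIdeal : ℝ) := by
    rw [finsum_eq_sum_of_support_subset (s := hfin.toFinset)]
    · refine Finset.sum_congr rfl fun w hw => ?_
      exact if_pos ((Set.Finite.mem_toFinset _).1 hw)
    · intro w hw
      rw [Finset.mem_coe, Set.Finite.mem_toFinset]
      by_contra hc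
      exact hw (if_neg hc)
  have h3 := Pool.Agent.N752.HY.Ext.sum_above (L := L) S hS
    (hfin.toFinset.filter fun v => ¬ Outside S v) fun v hv => (Finset.mem_filter.1 hv).2
  rw [Finset.sum_filter] at h3
  rw [e1, e2, div_add' _ _ _ hL0.ne']
  refine div_le_div_of_nonneg_right ?_ hL0.le
  rw [mul_comm (∑ p ∈ S, Real.log (p : ℝ))]
  refine le_trans ?_ (add_le_add (le_refl _) h3)
  rw [← Finset.sum_add_distrib]
  refine Finset.sum_le_sum fun v _ => ?_
  by_cases h : Outside S v
  · rw [if_pos h, if_neg (not_not.2 h), add_zero]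
  · rw [if_neg h, if_pos h, zero_add]

open Pool.Agent.N753.SU Pool.Agent.N753.LS Pool.Agent.H691R3 in
/-- **One exceptional set for all covers of products of lines.** Let `K` be a number field and
`m ≥ 1`. There is ONE set `E ⊆ K^m` with at most `C B ^ (2 m) exp (- √ log B)` points with
`H(x_i) ≤ B` for all `i` (`B ≥ 1`; the number of all these points has order `B ^ (2 m)`), with the
following property.

Let `A` be any normal domain, finite over `K[x_1, …, x_m]` and containing it, of rank `N`; let
`F_1, …, F_r` be irreducible polynomials, pairwise not associated, of total degree at most five; let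
`Y_1, …, Y_r` be finite subsets of `A` and `s_1, …, s_r ≤ N` such that the union of the prime divisors
above `F_j = 0` on which not all elements of `Y_j` vanish has degree at most `s_j` over `F_j = 0`. Let
`G ≠ 0` be a polynomial, `S'` a finite set of primes, `(F'_l, G'_l)` pairs of polynomials without
common factors, `M, Λ ≥ 0` and `ε > 0`. Then there is a constant `C` such that for all `x ∉ E` with
`F_j(x) ≠ 0`, `G(x) ≠ 0`, all closed points `P` of degree `N` of `Spec A` above `x`, with residue
field `L`, and all finite sets `S` of primes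
`∑_i (∑_j (1 - s_j / N) deg_i F_j - ε) h(x_i) + M m_{S'}(G, x) + Λ ∑_l h_{(F'_l, G'_l)}(x) ≤
  N_S^(1)(D, P) + d(L) + ∑_{p ∈ S} log p + C`. -/
theorem result (K : Type) [Field K] [NumberField K] (m : ℕ) (hm : 0 < m) :
    ∃ E : Set (Fin m → K),
      (∃ C : ℝ, ∀ B : ℝ, 1 ≤ B →
        {x | x ∈ E ∧ ∀ i, Height.mulHeight₁ (x i) ≤ B}.Finite ∧
        ({x | x ∈ E ∧ ∀ i, Height.mulHeight₁ (x i) ≤ B}.ncard : ℝ) ≤
          C * B ^ (2 * m) * Real.exp (-√(Real.log B))) ∧
      -- for all covers
      ∀ (A : Type) [CommRing A] [IsDomain A] [IsIntegrallyClosed A]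
        [Algebra (MvPolynomial (Fin m) K) A] [FaithfulSMul (MvPolynomial (Fin m) K) A]
        [Module.Finite (MvPolynomial (Fin m) K) A]
        -- all divisors
        (r : ℕ) (F : Fin r → MvPolynomial (Fin m) K) (Y : Fin r → Finset A) (s : Fin r → ℕ),
        (∀ j, Irreducible (F j)) → (∀ i j, i ≠ j → ¬ Associated (F i) (F j)) →
        (∀ j, totalDegree (F j) ≤ 5) → (∀ j, SheetsLE A (F j) (Y j) (s j)) →
        (∀ j, s j ≤ finrank (MvPolynomial (Fin m) K) A) →
        -- all ideals
        ∀ (G : MvPolynomial (Fin m) K), G ≠ 0 → ∀ S' : Finset ℕ, (∀ p ∈ S', p.Prime) →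
        ∀ (t : ℕ) (F' G' : Fin t → MvPolynomial (Fin m) K), (∀ l, IsRelPrime (F' l) (G' l)) →
        ∀ (M Λ ε : ℝ), 0 ≤ M → 0 ≤ Λ → 0 < ε → ∃ C : ℝ, ∀ x : Fin m → K, x ∉ E →
          (∀ j, MvPolynomial.eval x (F j) ≠ 0) → MvPolynomial.eval x G ≠ 0 →
          ∀ (L : Type) [Field L] [NumberField L] [Algebra K L] (φ : A →+* L), PointAbove x φ →
          ∀ S : Finset ℕ, (∀ p ∈ S, p.Prime) →
            ∑ i, (∑ j, (1 - (s j : ℝ) / finrank (MvPolynomial (Fin m) K) A) *
              ((F j).degreeOf i : ℝ) - ε) * height (x i) +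
              M * proximity S' G x + Λ * ∑ l, idealHeight (F' l) (G' l) x ≤
            truncated S F Y x φ + logDisc L + ∑ p ∈ S, Real.log p + C := by
  classical
  obtain ⟨E1, hE1, hmain⟩ := all_div K Pool.Agent.N73.SURM.stmRM Pool.Agent.N348.SU.um
    Pool.Agent.N348.SU.zm stmLM stmOD Pool.Agent.N222.SUOM.stmOM Pool.Agent.N199.SU.stmB4 m hm
  obtain ⟨E2, hE2, hidl⟩ := all_idl K Pool.Agent.N348.SU.um Pool.Agent.N348.SU.zm
    Pool.Agent.N199.SU.stmB1 Pool.Agent.N199.SU.stmB2 Pool.Agent.N199.SU.stmB3 m hm
  obtain ⟨E3, hE3, hprx⟩ := Pool.Agent.V8H31.AC.all_prox K m hm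
  refine ⟨E1 ∪ E2 ∪ E3, ⟨6, fun B hB => ?_⟩, ?_⟩
  · have hB0 : 0 < B := by linarith
    have hlog : 0 ≤ Real.log B := Real.log_nonneg hB
    have hset : {x : Fin m → K | x ∈ E1 ∪ E2 ∪ E3 ∧ ∀ i, Height.mulHeight₁ (x i) ≤ B} =
        (E1 ∩ {x | htm x ≤ Real.log B}) ∪ (E2 ∩ {x | htm x ≤ Real.log B}) ∪
          (E3 ∩ {x | htm x ≤ Real.log B}) := by
      rw [← Set.union_inter_distrib_right, ← Set.union_inter_distrib_right]
      ext x
      simp only [Set.mem_inter_iff, Set.mem_ofPred_eq]
      refine and_congr Iff.rfl ?_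
      have h1 : ∀ i, Height.mulHeight₁ (x i) ≤ B ↔ Height.logHeight₁ (x i) ≤ Real.log B := by
        intro i
        unfold Height.logHeight₁
        exact (Real.log_le_log_iff (Height.mulHeight₁_pos _) hB0).symm
      constructor
      · intro h
        exact htm_le hm fun i => (h1 i).1 (h i)
      · intro h i
        exact (h1 i).2 ((le_htm x i).trans h)
    rw [hset]
    have hf : ∀ E : Set (Fin m → K), (E ∩ {x | htm x ≤ Real.log B}).Finite := fun E =>
      (box_fin (Real.log B)).subset Set.inter_subset_right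
    refine ⟨((hf E1).union (hf E2)).union (hf E3), ?_⟩
    have h1 := Set.ncard_union_le (E1 ∩ {x | htm x ≤ Real.log B}) (E2 ∩ {x | htm x ≤ Real.log B})
    have h1' := Set.ncard_union_le (E1 ∩ {x | htm x ≤ Real.log B} ∪ E2 ∩ {x | htm x ≤ Real.log B})
      (E3 ∩ {x | htm x ≤ Real.log B})
    have h2 : ((E1 ∩ {x | htm x ≤ Real.log B} ∪ E2 ∩ {x | htm x ≤ Real.log B} ∪
        E3 ∩ {x | htm x ≤ Real.log B}).ncard : ℝ) ≤
        (E1 ∩ {x | htm x ≤ Real.log B}).ncard + (E2 ∩ {x | htm x ≤ Real.log B}).ncard +
          (E3 ∩ {x | htm x ≤ Real.log B}).ncard := by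
      exact_mod_cast h1'.trans (Nat.add_le_add_right h1 _)
    refine h2.trans ((add_le_add (add_le_add (hE1 _ hlog) (hE2 _ hlog)) (hE3 _ hlog)).trans
      (le_of_eq ?_))
    have h3 : Real.exp (2 * m * Real.log B - √(Real.log B)) =
        B ^ (2 * m) * Real.exp (-√(Real.log B)) := by
      rw [sub_eq_add_neg, Real.exp_add]
      congr 1
      rw [mul_comm, Real.exp_mul, Real.exp_log hB0]
      exact_mod_cast Real.rpow_natCast B (2 * m)
    rw [h3]
    ring
  · intro A _ _ _ _ _ _ r F Y s hF hFF h5 hs hsN G hG S' hS' t F' G' hFG M Λ ε hM hΛ hε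
    obtain ⟨d, hd⟩ : ∃ d : ℝ, d = (finrank ℚ K : ℝ) := ⟨_, rfl⟩
    have hd0 : 0 < d := by rw [hd]; exact_mod_cast finrank_pos
    -- the parts
    obtain ⟨C1, h1⟩ := Pool.Agent.N753.AC.cover Pool.Agent.N747.AC.ram
      (Pool.Agent.N459.AC.nrm Pool.Agent.N61.AC.loc) Pool.Agent.N348.SU.um hmain hidl hm A F Y s hF
      hFF h5 hs hsN ∅ (ε := ε / 3) (by positivity)
    obtain ⟨κ, hκ⟩ : ∃ κ : ℝ, κ = ε / (3 * (Λ * t + 1)) := ⟨_, rfl⟩
    have hκ0 : 0 < κ := by rw [hκ]; positivity
    have hκΛ : Λ * (t * κ) ≤ ε / 3 := by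
      have e1 : κ * (Λ * t + 1) = ε / 3 := by rw [hκ]; field_simp
      linarith
    have h2 := fun l => hidl (F' l) (G' l) (hFG l) κ hκ0
    choose h0 h2 using h2
    obtain ⟨κ', hκ'⟩ : ∃ κ' : ℝ, κ' = ε / (3 * (M + 1)) := ⟨_, rfl⟩
    have hκ'0 : 0 < κ' := by rw [hκ']; positivity
    have hκM : M * κ' ≤ ε / 3 := by
      have e1 : κ' * (M + 1) = ε / 3 := by rw [hκ']; field_simp
      linarith
    obtain ⟨h0', h3⟩ := hprx G hG S' hS' κ' hκ'0
    obtain ⟨T, hT⟩ : ∃ T : ℝ, T = |h0'| + ∑ l, |h0 l| := ⟨_, rfl⟩
    have hTl : ∀ l, h0 l ≤ T := fun l => (le_abs_self _).trans (by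
      rw [hT]
      have := Finset.single_le_sum (f := fun l => |h0 l|) (fun l _ => abs_nonneg _)
        (Finset.mem_univ l)
      have := abs_nonneg h0'
      linarith)
    have hT' : h0' ≤ T := (le_abs_self _).trans (by
      rw [hT]
      have : 0 ≤ ∑ l, |h0 l| := Finset.sum_nonneg fun l _ => abs_nonneg _
      linarith)
    -- the small points
    obtain ⟨C3, hC3⟩ : ∃ C3 : ℝ, C3 = ∑ x ∈ (box_fin (K := K) (m := m) T).toFinset,
      |M * Pool.Agent.V8H31.AC.pr S' G x + Λ * ∑ l, idHt (F' l) (G' l) x| := ⟨_, rfl⟩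
    have hC30 : 0 ≤ C3 := by
      rw [hC3]
      exact Finset.sum_nonneg fun x _ => abs_nonneg _
    refine ⟨(|C1| + C3) / d, ?_⟩
    intro x hxE hxF hxG L _ _ _ φ hφ S hS
    obtain ⟨hφ1, hφ2, hφ3⟩ := hφ
    rw [Set.mem_union, Set.mem_union, not_or, not_or] at hxE
    obtain ⟨⟨hx1, hx2⟩, hx3⟩ := hxE
    have k1 := h1 x hx1 hx2 hxF L φ hφ1 hφ2 hφ3
    have hfd : FiniteDimensional K L := Module.Finite.of_restrictScalars_finite ℚ K L
    obtain ⟨mL, hmL⟩ : ∃ mL : ℝ, mL = (finrank K L : ℝ) := ⟨_, rfl⟩
    have hm0 : 0 < mL := by rw [hmL]; exact_mod_cast finrank_pos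
    have htow : (finrank ℚ L : ℝ) = d * mL := by
      rw [hd, hmL]
      exact_mod_cast (finrank_mul_finrank ℚ K L).symm
    have k2 := hit_sum F Y hxF φ S hS
    obtain ⟨W, hW⟩ : ∃ W : ℝ, W = ∑ᶠ w : HeightOneSpectrum (𝓞 L),
      if Pool.Agent.N753.AC.Hit ∅ F Y x φ w then Real.log (Ideal.absNorm w.asIdeal : ℝ) else 0 :=
      ⟨_, rfl⟩
    rw [← hW] at k1 k2
    obtain ⟨lL, hlL⟩ : ∃ lL : ℝ, lL = Real.log |(NumberField.discr L : ℝ)| := ⟨_, rfl⟩
    rw [← hlL, ← hmL] at k1
    rw [htow] at k2
    have hnn : ∀ i, 0 ≤ Height.logHeight₁ (x i) := fun i => Height.zero_le_logHeight₁ _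
    have h6 : htm x ≤ ∑ i, Height.logHeight₁ (x i) := htm_le hm fun i =>
      Finset.single_le_sum (f := fun i => Height.logHeight₁ (x i)) (fun i _ => hnn i)
        (Finset.mem_univ i)
    have h7 : 0 ≤ htm x := (hnn ⟨0, hm⟩).trans (le_htm x _)
    -- proximity and ideals
    have k3 : M * Pool.Agent.V8H31.AC.pr S' G x + Λ * ∑ l, idHt (F' l) (G' l) x ≤
        (2 * (ε / 3)) * htm x + C3 := by
      by_cases hcase : htm x ≤ T
      · have h8 : M * Pool.Agent.V8H31.AC.pr S' G x + Λ * ∑ l, idHt (F' l) (G' l) x ≤ C3 := by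
          refine (le_abs_self _).trans ?_
          rw [hC3]
          exact Finset.single_le_sum (f := fun x =>
            |M * Pool.Agent.V8H31.AC.pr S' G x + Λ * ∑ l, idHt (F' l) (G' l) x|)
            (fun x _ => abs_nonneg _) (by
              rw [Set.Finite.mem_toFinset]
              exact hcase)
        have h9 := mul_nonneg (show 0 ≤ 2 * (ε / 3) by positivity) h7
        linarith
      · rw [not_le] at hcase
        have h8 : ∑ l, idHt (F' l) (G' l) x ≤ t * κ * htm x := by
          have e1 : (t : ℝ) * κ * htm x = ∑ _l : Fin t, κ * htm x := by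
            rw [Finset.sum_const, Finset.card_univ, Fintype.card_fin, nsmul_eq_mul, mul_assoc]
          rw [e1]
          exact Finset.sum_le_sum fun l _ => (h2 l x hx2 ((hTl l).trans hcase.le)).2
        have h9 := mul_le_mul_of_nonneg_left h8 hΛ
        have h10 := mul_le_mul_of_nonneg_right hκΛ h7
        have h11 := mul_le_mul_of_nonneg_left (h3 x hx3 (hT'.trans hcase.le)).2 hM
        have h12 := mul_le_mul_of_nonneg_right hκM h7
        nlinarith
    -- everything
    have k4 : ∑ i, (∑ j, (1 - (s j : ℝ) / finrank (MvPolynomial (Fin m) K) A) *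
        ((F j).degreeOf i : ℝ) - ε) * Height.logHeight₁ (x i) +
        (M * Pool.Agent.V8H31.AC.pr S' G x + Λ * ∑ l, idHt (F' l) (G' l) x) ≤
        W / mL + lL / mL + (|C1| + C3) := by
      have e1 : ∑ i, (∑ j, (1 - (s j : ℝ) / finrank (MvPolynomial (Fin m) K) A) *
          ((F j).degreeOf i : ℝ) - ε) * Height.logHeight₁ (x i) =
          ∑ i, (∑ j, (1 - (s j : ℝ) / finrank (MvPolynomial (Fin m) K) A) *
            ((F j).degreeOf i : ℝ)) * Height.logHeight₁ (x i) -
          ε * ∑ i, Height.logHeight₁ (x i) := by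
        rw [Finset.mul_sum, ← Finset.sum_sub_distrib]
        refine Finset.sum_congr rfl fun i _ => ?_
        ring
      rw [e1]
      have e2 := mul_le_mul_of_nonneg_left h6 hε.le
      have e3 := le_abs_self C1
      linarith
    have e1 : ∑ i, (∑ j, (1 - (s j : ℝ) / finrank (MvPolynomial (Fin m) K) A) *
        ((F j).degreeOf i : ℝ) - ε) * height (x i) =
        (∑ i, (∑ j, (1 - (s j : ℝ) / finrank (MvPolynomial (Fin m) K) A) *
        ((F j).degreeOf i : ℝ) - ε) * Height.logHeight₁ (x i)) / d := by
      rw [Finset.sum_div]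
      refine Finset.sum_congr rfl fun i _ => ?_
      unfold height
      rw [← hd]
      ring
    have e2 : proximity S' G x = Pool.Agent.V8H31.AC.pr S' G x / d := by
      unfold proximity Pool.Agent.V8H31.AC.pr Pool.Agent.N753.DR.proxM localHeight
      rw [← hd]
      simp only [MvPolynomial.aeval_def, Algebra.algebraMap_self, MvPolynomial.eval]
      rfl
    have e3 : ∀ l, idealHeight (F' l) (G' l) x = idHt (F' l) (G' l) x / d := by
      intro l
      unfold idealHeight
      rw [← hd]
      rfl
    have e4 : M * proximity S' G x + Λ * ∑ l, idealHeight (F' l) (G' l) x =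
        (M * Pool.Agent.V8H31.AC.pr S' G x + Λ * ∑ l, idHt (F' l) (G' l) x) / d := by
      simp only [e2, e3]
      rw [← Finset.sum_div]
      ring
    rw [add_assoc, e4, e1, ← add_div]
    have k5 := div_le_div_of_nonneg_right k4 hd0.le
    refine k5.trans ?_
    have e5 : (W / mL + lL / mL + (|C1| + C3)) / d = W / (d * mL) + lL / (d * mL) +
        (|C1| + C3) / d := by
      field_simp
    rw [e5]
    unfold logDisc
    rw [← hlL, htow]
    linarith

end Pool.Agent.Results.MP_71c16a_nt.CoversOfProductsOfLines
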