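import Mathlib
import Pool.Agent.V8H3.VojtaC
import Pool.Agent.V8H3.VojtaD
import Pool.Agent.V8H3.BasisOne

/-!
# Vojta's inequality on all covers of a curve, above the members of linear systems

`Y = Spec A` is a smooth affine geometrically integral curve over a number field `K`, with a finite
map `X : Y → 𝔸¹` of degree `[A : K[X]]`. The members `∑ c_i f_i` of a linear system `f` on `Y` have
zeros, and for most `c` the zero is one closed point of `Y`. We prove that outside one thin set `E`
of members Vojta's inequality, with the truncated counting function and the discriminant, holds on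
all covers `Y' → Y` and for all reduced divisors `T` on `Y'`, all finite sets `S` of places and all
`κ > 0`, for all algebraic points of `Y'` above the zeros of the members which are not in `E`.

All heights, proximity functions, counting functions and discriminants are absolute: they are
divided by `[L : ℚ]`, where `L` is the field over which the point is defined.
-/

set_option autoImplicit false

namespace Pool.Agent.Results.MP_71c16a_nt.LinearSystemsOnCurves

open Module Polynomial NumberField IsDedekindDomain
open scoped LinearAlgebra.Projectivization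

/-- the member `∑ c_i f_i` of the linear system `f` -/
def member {K A : Type} [Field K] [CommRing A] [Algebra K A] {m : ℕ} (f : Fin m → A)
    (c : Fin m → K) : A := ∑ i, c i • f i

/-- the linear system `V_n` of a basis `b` of `A` over `K[X]`: the functions `X ^ k • b_j` with
`k ≤ n` -/
noncomputable def system {K A : Type} [Field K] [CommRing A] [Algebra K[X] A] {N : ℕ}
    (b : Fin N → A) (n : ℕ) (i : Fin (N * (n + 1))) : A :=
  (X : K[X]) ^ ((finProdFinEquiv.symm i).2 : ℕ) • b (finProdFinEquiv.symm i).1

/-- the degree over `K` of the closed point with the ideal `I` -/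
noncomputable def degree (K : Type) {A : Type} [Field K] [CommRing A] [Algebra K A]
    (I : Ideal A) : ℕ := finrank K (A ⧸ I)

/-- the absolute logarithmic height of the point with the coordinate `y` -/
noncomputable def height {L : Type} [Field L] [NumberField L] (y : L) : ℝ :=
  Height.logHeight₁ y / finrank ℚ L

/-- `log |disc L| / [L : ℚ]` -/
noncomputable def logDisc (L : Type) [Field L] [NumberField L] : ℝ :=
  Real.log |(discr L : ℝ)| / finrank ℚ L

open Classical in
/-- The proximity function of the divisor `p = 0` of the line at the point `y`, for the infinite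
places and the places above the primes in `S`. -/
noncomputable def proximity {K L : Type} [Field K] [Field L] [NumberField L] [Algebra K L]
    (S : Finset ℕ) (p : K[X]) (y : L) : ℝ :=
  (∑ w : InfinitePlace L, (w.mult : ℝ) *
      Real.log (max (w y) 1 ^ p.natDegree / w (aeval y p)) +
    ∑ᶠ v : HeightOneSpectrum (𝓞 L), if ∃ q ∈ S, (q : 𝓞 L) ∈ v.asIdeal then
      Real.log (max (FinitePlace.mk v y) 1 ^ p.natDegree / FinitePlace.mk v (aeval y p)) else 0) /
    finrank ℚ L

/-- The point `P` of the curve `Spec A'` meets the divisor `T` at the prime `v`, which is not above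
a prime in `S`, and the coordinate `x` of `P` is integral at `v`. Here `Y Q` is a finite set of
generators of the ideal `Q`, for all `Q ∈ T`. -/
def Meets {A' L : Type} [CommRing A'] [Field L] [NumberField L] (x : A') (T : Finset (Ideal A'))
    (Y : Ideal A' → Finset A') (S : Finset ℕ) (P : A' →+* L)
    (v : HeightOneSpectrum (𝓞 L)) : Prop :=
  (∀ l ∈ S, (l : 𝓞 L) ∉ v.asIdeal) ∧ v.valuation L (P x) ≤ 1 ∧
    ∃ Q ∈ T, ∀ y ∈ Y Q, v.valuation L (P y) < 1

open Classical in
/-- The truncated counting function: the sum of `log N(v) / [L : ℚ]` over the primes `v` at which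
`P` meets `T`, each prime counted once. -/
noncomputable def truncated {A' L : Type} [CommRing A'] [Field L] [NumberField L] (x : A')
    (T : Finset (Ideal A')) (Y : Ideal A' → Finset A') (S : Finset ℕ) (P : A' →+* L) : ℝ :=
  (∑ᶠ v : HeightOneSpectrum (𝓞 L),
    if Meets x T Y S P v then Real.log (Ideal.absNorm v.asIdeal : ℝ) else 0) / finrank ℚ L

/-- The degree of the ramification divisor of `Spec A' → Spec A` above the closed point `I`: the
sum of `(e_Q - 1) deg Q` over the points `Q` above `I`, where `e_Q` is the ramification index. -/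
noncomputable def ramification (K : Type) {A : Type} (A' : Type) [Field K] [CommRing A]
    [CommRing A'] [Algebra A A'] [Algebra K A'] (I : Ideal A) : ℝ :=
  ∑ᶠ Q ∈ I.primesOver A', ((Q.ramificationIdx A : ℝ) - 1) * (degree K Q : ℝ)

/-- `w` is an admissible weight for the closed point `I` of degree `d`, with the residue field `L`:
the ratios of the values of the members of `f` at `I` generate `L` over `K`, these values span a
space of dimension `ρ` over `K`, and `w ≤ d` if `d < 3 ρ`, `w ≤ 2 ρ` if `d ≥ 3 ρ`. -/
def Weight {K A : Type} [Field K] [CommRing A] [Algebra K A] {m : ℕ} (f : Fin m → A)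
    (I : Ideal A) (w : ℕ) : Prop :=
  ∃ (L : Type) (_ : Field L) (_ : NumberField L) (_ : Algebra K L) (ψ : A →ₐ[K] L),
    Function.Surjective ψ ∧ RingHom.ker ψ = I ∧
      (∃ i, ψ (f i) ≠ 0 ∧
        IntermediateField.adjoin K (Set.range fun j => ψ (f j) / ψ (f i)) = ⊤) ∧
      w ≤ if finrank K L < 3 * finrank K (Submodule.span K (Set.range fun i => ψ (f i)))
        then finrank K L else 2 * finrank K (Submodule.span K (Set.range fun i => ψ (f i)))

/-- `Spec A` is a smooth affine curve over `K` with a finite map `X` to the line: `A` is a Dedekind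
domain, which is finite over `K[X]`, and `K[X]` is a subring of `A` -/
def IsCurve (K A : Type) [Field K] [CommRing A] [Algebra K A] [Algebra K[X] A] : Prop :=
  IsDedekindDomain A ∧ IsScalarTower K K[X] A ∧ Module.Finite K[X] A ∧ FaithfulSMul K[X] A

/-- the coordinate `X` -/
noncomputable def coord (K A : Type) [Field K] [CommRing A] [Algebra K[X] A] : A :=
  algebraMap K[X] A X

/-- the degree of the map `X` from `Spec A` to the line -/
noncomputable def rank (K A : Type) [Field K] [CommRing A] [Algebra K[X] A] : ℕ := finrank K[X] A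

/-- The factor of the height in Vojta's inequality on the cover `Spec A'` of `Spec A`: here `B` is a
finite set of closed points of `Spec A` with weights `w`, `T` is a finite set of closed points of
`Spec A'` above `B`, and `G` is a real number. -/
noncomputable def factor (K : Type) {A A' : Type} [Field K] [CommRing A] [CommRing A']
    [Algebra K A] [Algebra K A'] [Algebra K[X] A] [Algebra K[X] A'] [Algebra A A']
    (B : Finset (Ideal A)) (w : Ideal A → ℕ) (T : Finset (Ideal A')) (G : ℝ) : ℝ :=
  (∑ I ∈ B, ramification K A' I + ∑ Q ∈ T, (degree K Q : ℝ)) / rank K A' +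
    (G - (∑ I ∈ B, (degree K I : ℝ) - ∑ I ∈ B, (w I : ℝ))) / rank K A

/-- The points of `B` are closed points with admissible weights, the points of `T` are closed points
above `B`, and `Y Q` is a finite set of generators of the ideal `Q ∈ T`. -/
def Admissible {A A' : Type} [CommRing A] [CommRing A'] [Algebra A A'] (Adm : Ideal A → ℕ → Prop)
    (B : Finset (Ideal A)) (w : Ideal A → ℕ) (T : Finset (Ideal A')) (Y : Ideal A' → Finset A') :
    Prop :=
  (∀ I ∈ B, I.IsMaximal ∧ Adm I (w I)) ∧
    ∀ Q ∈ T, Q.IsPrime ∧ Q.comap (algebraMap A A') ∈ B ∧ Ideal.span (Y Q : Set A') = Q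

/-- the closed point of `Spec A` below the point `P` of `Spec A'` -/
def below {K A' L : Type} (A : Type) [Field K] [CommRing A] [CommRing A'] [Field L] [Algebra K A']
    [Algebra K L] [Algebra A A'] (P : A' →ₐ[K] L) : Ideal A :=
  (RingHom.ker P).comap (algebraMap A A')

/-- **Vojta's inequality** for the points above the zeros of the members of the linear system `f`
which are not in `E`, on all covers `Spec A' → Spec A`. -/
def VojtaInequality {K A : Type} [Field K] [NumberField K] [CommRing A] [Algebra K A]
    [Algebra K[X] A] {m : ℕ} (f : Fin m → A) (E : Set (ℙ K (Fin m → K)))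
    (Adm : Ideal A → ℕ → Prop) (G : ℝ) : Prop :=
  ∀ (A' : Type) [CommRing A'] [Algebra K A'] [Algebra K[X] A'] [Algebra A A'],
    IsCurve K A' → IsScalarTower K[X] A A' →
    ∀ (B : Finset (Ideal A)) (w : Ideal A → ℕ) (T : Finset (Ideal A')) (Y : Ideal A' → Finset A'),
    Admissible Adm B w T Y → ∀ p : K[X], p.Monic → ∀ S : Finset ℕ, (∀ l ∈ S, l.Prime) →
    ∀ κ : ℝ, 0 < κ → ∃ C : ℝ, ∀ (L : Type) [Field L] [NumberField L] [Algebra K L]
      (P : A' →ₐ[K] L), ∀ c ∉ E, below A P = Ideal.span {member f c.rep} → below A P ∉ B →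
      aeval (P (coord K A')) p ≠ 0 →
      proximity S p (P (coord K A')) + (factor K B w T G - κ) * height (P (coord K A')) ≤
        truncated (coord K A') T Y S (P : A' →+* L) + logDisc L + C

/-- The exceptional set `E` is thin, and the members which are not in `E` are generic: their
divisors have degree `r`, are different from the divisors of all other members, and the height of
the zero is the height of the member times `[A : K[X]] / r`, up to a bounded function. -/
structure Generic {K A : Type} [Field K] [NumberField K] [CommRing A] [Algebra K A]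
    [Algebra K[X] A] {m : ℕ} (f : Fin m → A) (r : ℕ) (E : Set (ℙ K (Fin m → K))) : Prop where
  /-- at most `C exp (m U - √U)` members with height at most `U` are in `E` -/
  thin : ∃ C : ℝ, ∀ U : ℝ, 0 ≤ U →
    {c : ℙ K (Fin m → K) | c ∈ E ∧ Height.logHeight c.rep ≤ U}.Finite ∧
    ({c : ℙ K (Fin m → K) | c ∈ E ∧ Height.logHeight c.rep ≤ U}.ncard : ℝ) ≤
      C * Real.exp (m * U - √U)
  /-- the degree -/
  deg : ∀ c ∉ E, degree K (Ideal.span {member f c.rep}) = r
  /-- the divisor determines the member -/
  unique : ∀ c ∉ E, ∀ c' : ℙ K (Fin m → K),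
    Ideal.span {member f c.rep} = Ideal.span {member f c'.rep} → c' = c
  /-- the height -/
  height : ∃ C : ℝ, ∀ (L : Type) [Field L] [NumberField L] [Algebra K L] (P : A →ₐ[K] L)
    (c : ℙ K (Fin m → K)), c ∉ E → RingHom.ker P = Ideal.span {member f c.rep} →
    |height (P (coord K A)) - rank K A / r * (Height.logHeight c.rep / finrank ℚ K)| ≤ C

theorem normalise {a b H s d n C : ℝ} (hn : 0 < n) (h : a + b * H ≤ s + d + n * C) :
    a / n + b * (H / n) ≤ s / n + d / n + C := by
  have h2 := div_le_div_of_nonneg_right h hn.le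
  rwa [add_div, add_div, add_div, mul_div_cancel_left₀ _ hn.ne', mul_div_assoc] at h2

/-- the weight of a closed point of degree `d` for the system `V_n`, where `k` is the dimension of
`V_n` -/
def largeWeight (k d : ℕ) : ℕ := if d < 3 * k then d else 2 * k

/-- **Vojta's inequality with truncated counting functions on all covers of a curve.** There is a
function `e`, which is at most `c (log n) ^ 2` for large `n` for every `c > 1 / (8 (log 2) ^ 2)`,
such that for all smooth affine geometrically integral curves `Spec A` over number fields `K` with a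
finite map `X` to the line:
1. for every linear system `f` without common zeros on `Spec A` there are `r` and a thin set `E` of
   members such that Vojta's inequality holds on all covers for all `G ≥ 0` with
   `G e(r) + 2 [A : K[X]] < m`;
2. `A` has a basis over `K[X]` which contains `1`, and for every such basis and every `G ≥ 0` this
   holds for the systems `V_n` for all large `n`, where `r ≤ [A : K[X]] n + c₀`, and the weight of a
   closed point of degree `d` is `d` if `d < 3 [A : K[X]] (n + 1)`. -/
theorem result : ∃ e : ℕ → ℝ, (∀ n, 0 ≤ e n) ∧ (∀ c : ℝ, 1 / (8 * (Real.log 2) ^ 2) < c →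
      ∀ᶠ n : ℕ in Filter.atTop, e n ≤ c * (Real.log n) ^ 2) ∧
  ∀ (K A : Type) [Field K] [NumberField K] [CommRing A] [Algebra K A] [Algebra K[X] A],
    IsCurve K A → IsDomain (TensorProduct K (AlgebraicClosure K) A) →
  (∀ m : ℕ, 3 ≤ finrank ℚ K * m → ∀ f : Fin m → A, LinearIndependent K f →
    Ideal.span (Set.range f) = ⊤ → ∃ (r : ℕ) (E : Set (ℙ K (Fin m → K))), Generic f r E ∧
      ∀ G : ℝ, 0 ≤ G → G * e r + 2 * rank K A < m →
        VojtaInequality f E (Weight (K := K) f) G) ∧
  (∃ b : Basis (Fin (rank K A)) K[X] A, ∃ i, b i = 1) ∧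
  ∀ b : Basis (Fin (rank K A)) K[X] A, (∃ i, b i = 1) → ∃ c₀ : ℕ,
    ∀ G : ℝ, 0 ≤ G → ∃ n₀ : ℕ, ∀ n : ℕ, n₀ ≤ n →
      ∃ (r : ℕ) (E : Set (ℙ K (Fin (rank K A * (n + 1)) → K))), r ≤ rank K A * n + c₀ ∧
        Generic (system (K := K) b n) r E ∧ VojtaInequality (system (K := K) b n) E
          (fun I w => w = largeWeight (rank K A * (n + 1)) (degree K I)) G := by
  obtain ⟨e, he1, he2, hmain⟩ := Pool.Agent.V8H3.Vojta.vojta
  refine ⟨e, he2, he1, ?_⟩
  intro K A _ _ _ _ _ hcurve hdom
  obtain ⟨_, _, _, _⟩ := hcurve
  -- the first part, with one more conclusion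
  have key : ∀ m : ℕ, 3 ≤ finrank ℚ K * m → ∀ f : Fin m → A, LinearIndependent K f →
      Ideal.span (Set.range f) = ⊤ → ∃ (r : ℕ) (E : Set (ℙ K (Fin m → K))),
      (∃ c : Fin m → K, member f c ≠ 0 ∧ finrank K (A ⧸ Ideal.span {member f c}) = r) ∧
      Generic f r E ∧ ∀ G : ℝ, 0 ≤ G → G * e r + 2 * finrank K[X] A < m →
        VojtaInequality f E (Weight (K := K) f) G := by
    intro m hm3 f hf htop
    obtain ⟨m, rfl⟩ : ∃ m', m = m' + 1 := ⟨m - 1, by
      have : m ≠ 0 := by
        rintro rfl
        omega
      omega⟩
    obtain ⟨r, E, hr1, hr2, huniq, hdens, hcov, Ch, hht⟩ := hmain K A hdom m hm3 f hf htop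
    refine ⟨r, E, hr1, ⟨?_, hr2, huniq, ⟨Ch, ?_⟩⟩, ?_⟩
    · obtain ⟨C, hC⟩ := hdens
      refine ⟨C, fun U hU => ⟨(hC U hU).1, ?_⟩⟩
      have := (hC U hU).2
      push_cast
      exact this
    · intro L _ _ _ P c hc hker
      have h1 := hht L P c hc hker
      have hL : (0 : ℝ) < finrank ℚ L := by exact_mod_cast finrank_pos
      have hfdL : FiniteDimensional K L := FiniteDimensional.right ℚ K L
      have h3 : finrank ℚ K * finrank K L = finrank ℚ L := finrank_mul_finrank ℚ K L
      have h3' : (finrank ℚ K : ℝ) * finrank K L = finrank ℚ L := by exact_mod_cast h3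
      have hK : (0 : ℝ) < finrank ℚ K := by exact_mod_cast finrank_pos
      have hKL : (0 : ℝ) < finrank K L := by exact_mod_cast finrank_pos
      have h4 : LinearSystemsOnCurves.height (P (algebraMap K[X] A X)) -
          finrank K[X] A / r * (Height.logHeight c.rep / finrank ℚ K) =
          (Height.logHeight₁ (P (algebraMap K[X] A X)) -
            finrank K[X] A * (finrank K L / r * Height.logHeight c.rep)) / finrank ℚ L := by
        have h5 : (finrank K[X] A : ℝ) * (finrank K L / r * Height.logHeight c.rep) =
            (finrank K[X] A / r * (Height.logHeight c.rep / finrank ℚ K)) * finrank ℚ L := by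
          rw [← h3']
          field_simp
        rw [LinearSystemsOnCurves.height, sub_div, h5, mul_div_cancel_right₀ _ hL.ne']
      show |LinearSystemsOnCurves.height (P (algebraMap K[X] A X)) -
          finrank K[X] A / r * (Height.logHeight c.rep / finrank ℚ K)| ≤ Ch
      rw [h4, abs_div, abs_of_pos hL, div_le_iff₀ hL]
      linarith
    · intro G hG hGe A' _ _ _ _ hcurve' htow B w T Y hBT p hp S hS κ hκ
      obtain ⟨_, _, _, _⟩ := hcurve'
      obtain ⟨C, hC⟩ := hcov A' B w T Y hBT.1 hBT.2 p hp S hS G κ hG
        (by push_cast at hGe; exact hGe) hκ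
      refine ⟨C, ?_⟩
      intro L _ _ _ P c hc hker hkB hpne
      have h1 := hC L P c hc hker hkB hpne
      have hL : (0 : ℝ) < finrank ℚ L := by exact_mod_cast finrank_pos
      exact normalise hL h1
  refine ⟨?_, Pool.Agent.V8H3.BasisOne.exists_basis K A, ?_⟩
  · intro m hm3 f hf htop
    obtain ⟨r, E, -, h1, h2⟩ := key m hm3 f hf htop
    exact ⟨r, E, h1, h2⟩
  · intro b hb
    obtain ⟨c₀, hc₀⟩ := Pool.Agent.V8H3.Vn3.const b hb
    have hN : 0 < finrank K[X] A := by
      obtain ⟨i, -⟩ := hb
      exact i.pos
    refine ⟨c₀, fun G hG => ?_⟩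
    obtain ⟨n₀, hn₀⟩ := Pool.Agent.V8H3.VojtaD.growth e he1 he2 G hG (finrank K[X] A) c₀ hN
    refine ⟨n₀ + c₀ + 3, fun n hn => ?_⟩
    obtain ⟨hli, htop, hdeg, hwt⟩ := hc₀ n (by omega)
    have hm3 : 3 ≤ finrank ℚ K * (finrank K[X] A * (n + 1)) := by
      have h1 : 0 < finrank ℚ K := finrank_pos
      calc 3 ≤ 1 * (1 * (n + 1)) := by omega
        _ ≤ finrank ℚ K * (finrank K[X] A * (n + 1)) :=
          Nat.mul_le_mul h1 (Nat.mul_le_mul_right _ hN)
    obtain ⟨r, E, ⟨c, hc1, hc2⟩, h1, h2⟩ := key _ hm3 (system (K := K) b n) hli htop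
    have hr : r ≤ finrank K[X] A * n + c₀ := by
      rw [← hc2]
      exact hdeg c hc1
    refine ⟨r, E, hr, h1, ?_⟩
    have h3 := h2 G hG (hn₀ n (by omega) r hr)
    intro A' _ _ _ _ hcurve' htow B w T Y hBT
    refine h3 A' hcurve' htow B w T Y ⟨fun I hI => ⟨(hBT.1 I hI).1, ?_⟩, hBT.2⟩
    rw [(hBT.1 I hI).2]
    -- the weights
    have hft : IsNoetherianRing A := inferInstance
    obtain ⟨u, g, hg⟩ := Submodule.fg_iff_exists_fin_generating_family.1
      (IsNoetherian.noetherian I)
    have hg' : Ideal.span (Set.range g) = I := hg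
    have h4 := hwt u g (by rw [hg']; exact (hBT.1 I hI).1)
    obtain ⟨L, i1, i2, i3, ψ, p1, p2, p3, p4⟩ := h4
    rw [hg'] at p4
    exact ⟨L, i1, i2, i3, ψ, p1, p2.trans hg', p3, p4⟩

end Pool.Agent.Results.MP_71c16a_nt.LinearSystemsOnCurves
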