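import Pool.Agent.V8H31.PC.Thm
import Pool.Agent.N752.HY.Ext

/-!
# Vojta's inequality for points of given degrees: one exceptional set for all products of curves

Let `K` be a number field, `m ≥ 1` and `r_1, …, r_m ≥ 1`. We consider ALL number fields `k`
containing `K`, all smooth projective curves `C_1, …, C_m` over `k` with finite maps
`t_i : C_i → ℙ¹` over `k`, and all reduced effective divisors `D_i` on `C_i` which are mapped by
`t_i` to elements `a_{i j}` of `k` of degree at most `3 r_i + 2` over `K`. (For example to elements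
of `K`: by Belyi's theorem every curve over every number field `k` and every divisor on it are of
this kind, with `t_i` unramified outside of the fibres over three rational numbers.) Let `A_i` be
the ring of the functions on `C_i` with poles only over `∞`: a Dedekind domain, finite over `k[t]`.
Its rank `N_i` is the degree of `t_i`.

Let `V = C_1 × … × C_m` and `D = ∑_i pr_i^* D_i`, a divisor with simple normal crossings on `V`.
Let `s_{i j}` be the degree over `k` of the sum of the points of `C_i` above `a_{i j}` which are NOT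
in `D_i`. If `R_i` is the part of the ramification divisor of `t_i` above the `a_{i j}`, then
`deg (R_i + D_i) = N_i ∑_j (1 - s_{i j} / N_i)`. As heights relative to divisors of the same degree
on a curve differ by `O(√h + 1)`, the sum `∑_i (∑_j (1 - s_{i j} / N_i)) h(x_i)`, `x_i = t_i(P)`, is
the height of `P` relative to `∑_i pr_i^* R_i + D` up to an arbitrarily small multiple of
`∑_i h(x_i)`. So it is `h_{K_V + D}(P) + 2 ∑ h(x_i)` if all ramification is above the `a_{i j}`.

The points `P` of `V` (not over `∞`) over a number field `L` containing `k` are the tuples of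
homomorphisms `φ_i : A_i → L` over `k`. We consider the points `P` for which `x_i` has degree `r_i`
over `K` for all `i`; they have bounded degree over `k` (at most `∏ r_i N_i`), and all points of
bounded degree on all products of curves are of this kind, for some `r_i`. The tuples `(x_i)` with
these degrees and with absolute heights at most `B` are, up to conjugation of the `x_i` over `K`,
about `B ^ (d ∑ r_i (r_i + 1))` in number, where `d` is the degree of `K`. There is ONE set `E` of
density zero of such tuples such that for ALL `k`, `C_i`, `t_i`, `a_{i j}`, `D_i`, all divisors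
`G = 0` of `(ℙ¹)^m` over `k`, all finite sets `S'` of primes of `k`, all multiplicities `M ≥ 0` and
all `ε > 0`, all points `P` over tuples outside of `E` (not on `G = 0`) and all finite sets `S` of
rational primes satisfy, with a constant `C` which does not depend on `P`, `L`, `S`,

`∑_i (∑_j (1 - s_{i j} / N_i) - ε) h(x_i) + M m_{S'}(G, x)`
`  ≤ N_S^(1)(D, P) + d(L) + ∑_{p ∈ S} log p + C`.

Here `N_S^(1)` is the truncated counting function (a prime at which several of the `P_i` meet `D_i`
is counted only once). The term with `M` majorizes the proximity function `m_{S'}(I, P)` of any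
ideal sheaf `I ≠ 0` on `V`, in particular of any multiple of any divisor (take for `G` the norm of a
section of a twist of `I`). So this contains, for `D_i = 0`, Vojta's inequality
`∑_{v ∈ S'} λ_{D', v}(P) + h_{K_V}(P) ≤ d(P) + ε h_A(P) + O(1)` for ALL effective divisors `D'`,
and, for general `D_i`, the stronger inequality with truncated counting functions, for all products
of curves and all points of bounded degree above almost all tuples, with the additional term
`2 ∑ h(x_i)` on the left.

The case of `K`-rational `x_i` and `a_{i j}` is in the starting files with another ordering of the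
tuples (OneExceptionalSet), which is not comparable: there `E` is thin among the tuples with small
truncated counting functions. Here the coordinates are algebraic points of arbitrary degrees `r_i`,
the `a_{i j}` have degrees up to `3 r_i + 2` (up to five for `r_i = 1`), and all divisors `G = 0`
are allowed.

Proof. For an extension `L / F` of number fields and a prime `w` of `F` the primes `u` above `w`
contribute at least `∑_u (e(u | w) - 1) log N(u) = [L : F] log N(w) - ∑_u log N(u)` to
`log |disc L|`. This is applied to `F = k(x_i)` and the primes `w` at which `x_i` meets some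
`a_{i j}`. The sum of the `log N(w)` is at least `(q_i - κ) h(x_i)` if the closed point of `x_i` is
not in a thin set; this is reduced to a lower bound for the square-free part of the norm form
`N_{K(a)/K}(∑ c_l a ^ l)` at almost all `c` (the coefficients of the minimal polynomial of `x_i`
over `K`), which is possible up to degree `3 r_i + 2` (`Pool.Agent.V8H3.Cnt3.cnt3`). The sum of the
`log N(u)` over the primes `u` above these `w` at which `P_i` does not meet `D_i` is at most
`(∑_j s_{i j} / N_i + κ) h(x_i)`. The bounds for the different coordinates can be added, as for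
tuples outside of a set of density zero the sum of `log p` over the prime numbers `p` below primes
at which two of the coordinates meet some `a_{i j}`, `a_{i' j'}` is small.
-/

set_option autoImplicit false

namespace Pool.Agent.Results.MP_71c16a_nt.ProductsOfCurvesBoundedDegree

open NumberField IsDedekindDomain Module Polynomial

/-- the function `t` on the curve, finite over the `t`-line, with the ring of functions `A` -/
noncomputable def coord (k A : Type) [Field k] [CommRing A] [Algebra k[X] A] : A :=
  algebraMap k[X] A X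

/-- the absolute logarithmic height of `x ∈ L` -/
noncomputable def height {L : Type} [Field L] [NumberField L] (x : L) : ℝ :=
  Height.logHeight₁ x / finrank ℚ L

/-- the tuples of closed points of the affine line over `K` of degrees `r_1, …, r_m` and absolute
heights at most `B`: a closed point is given by the minimal polynomial over `K` of its coordinate -/
def Tuples (K : Type) [Field K] [NumberField K] {m : ℕ} (r : Fin m → ℕ) (B : ℝ) :
    Set (Fin m → K[X]) :=
  {P | ∀ i, ∃ (L : Type) (_ : Field L) (_ : NumberField L) (_ : Algebra K L) (x : L),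
    minpoly K x = P i ∧ (P i).natDegree = r i ∧ height x ≤ Real.log B}

open Classical in
/-- the degree over `k` of the sum of the points above `t = a` which are not in `D` -/
noncomputable def rest {k : Type} (A : Type) [Field k] [CommRing A] [Algebra k A] [Algebra k[X] A]
    (D : Finset (HeightOneSpectrum A)) (a : k) : ℝ :=
  ∑ᶠ 𝔭 : HeightOneSpectrum A, if coord k A - algebraMap k A a ∈ 𝔭.asIdeal ∧ 𝔭 ∉ D then
    (finrank k (A ⧸ 𝔭.asIdeal) : ℝ) else 0

/-- the local height `log (∏ max(1, |x_i|) ^ deg_i G / |G(x)|)` of the point `x` relative to the divisor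
`G = 0` of `(ℙ¹)^m`, for the absolute value `v` -/
noncomputable def localHeight {k L : Type} [Field k] [Field L] [Algebra k L] {m : ℕ}
    (G : MvPolynomial (Fin m) k) (x : Fin m → L) (v : L → ℝ) : ℝ :=
  Real.log ((∏ i, max (v (x i)) 1 ^ G.degreeOf i) / v (MvPolynomial.aeval x G))

open Classical in
/-- the proximity function `m_{S'}(G, x)`: the sum of the local heights relative to `G = 0` at the
infinite places of `L` and at the primes of `L` above the primes in `S'`, divided by `[L : ℚ]` -/
noncomputable def proximity {k L : Type} [Field k] [NumberField k] [Field L] [NumberField L]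
    [Algebra k L] {m : ℕ} (S' : Finset (HeightOneSpectrum (𝓞 k)))
    (G : MvPolynomial (Fin m) k) (x : Fin m → L) : ℝ :=
  (∑ w : InfinitePlace L, (w.mult : ℝ) * localHeight G x w +
    ∑ᶠ v : HeightOneSpectrum (𝓞 L),
      if ∃ p ∈ S', v.asIdeal.comap (algebraMap (𝓞 k) (𝓞 L)) = p.asIdeal then
        localHeight G x (FinitePlace.mk v) else 0) / finrank ℚ L

/-- the prime `w` of `L` is not above a prime number in `S` -/
def Outside {L : Type} [Field L] [NumberField L] (S : Finset ℕ) (w : HeightOneSpectrum (𝓞 L)) :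
    Prop := ∀ p ∈ S, (p : 𝓞 L) ∉ w.asIdeal

/-- the point `P` of the curve, given by `φ : A → L`, meets `D` at the prime `w` of `L`: `t(P)` is
integral at `w`, and there is a point `𝔭` in `D` such that `|y(P)|_w < 1` for the given
generators `y` of `𝔭` -/
def Meets {k A : Type} [Field k] [CommRing A] [Algebra k A] [Algebra k[X] A]
    (D : Finset (HeightOneSpectrum A)) (Y : HeightOneSpectrum A → Finset A)
    {L : Type} [Field L] [NumberField L] [Algebra k L] (φ : A →ₐ[k] L)
    (w : HeightOneSpectrum (𝓞 L)) : Prop :=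
  FinitePlace.mk w (φ (coord k A)) ≤ 1 ∧ ∃ 𝔭 ∈ D, ∀ y ∈ Y 𝔭, FinitePlace.mk w (φ y) < 1

open Classical in
/-- the truncated counting function `N_S^(1)(D, P)` of the point `P = (φ_i)`, `D = ∑ pr_i^* D_i`: the
sum of `log N(w) / [L : ℚ]` over the primes `w` of `L`, not above primes in `S`, at which some
`P_i` meets `D_i` -/
noncomputable def truncated {k : Type} [Field k] {m : ℕ} {A : Fin m → Type}
    [∀ i, CommRing (A i)] [∀ i, Algebra k (A i)] [∀ i, Algebra k[X] (A i)] (S : Finset ℕ)
    (D : ∀ i, Finset (HeightOneSpectrum (A i))) (Y : ∀ i, HeightOneSpectrum (A i) → Finset (A i))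
    {L : Type} [Field L] [NumberField L] [Algebra k L] (φ : ∀ i, A i →ₐ[k] L) : ℝ :=
  (∑ᶠ w : HeightOneSpectrum (𝓞 L), if Outside S w ∧ ∃ i, Meets (D i) (Y i) (φ i) w then
    Real.log (Ideal.absNorm w.asIdeal) else 0) / finrank ℚ L

/-- the (absolute) logarithmic discriminant `log |disc L| / [L : ℚ]` -/
noncomputable def logDisc (L : Type) [Field L] [NumberField L] : ℝ :=
  Real.log |(NumberField.discr L : ℝ)| / finrank ℚ L

/-! ### lemmas -/

theorem mk_le_one {L : Type} [Field L] [NumberField L] (w : HeightOneSpectrum (𝓞 L)) (y : L) :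
    FinitePlace.mk w y ≤ 1 ↔ w.valuation L y ≤ 1 := by
  rw [FinitePlace.mk_apply, FinitePlace.norm_embedding', ← NNReal.coe_one, NNReal.coe_le_coe]
  exact WithZeroMulInt.toNNReal_le_one_iff (HeightOneSpectrum.one_lt_absNorm_nnreal w)

theorem mk_lt_one {L : Type} [Field L] [NumberField L] (w : HeightOneSpectrum (𝓞 L)) (y : L) :
    FinitePlace.mk w y < 1 ↔ w.valuation L y < 1 := by
  rw [FinitePlace.mk_apply, FinitePlace.norm_embedding', ← NNReal.coe_one, NNReal.coe_lt_coe]
  exact WithZeroMulInt.toNNReal_lt_one_iff (HeightOneSpectrum.one_lt_absNorm_nnreal w)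

theorem val_finite {L : Type} [Field L] [NumberField L] (y : L) (hy : y ≠ 0) :
    {v : HeightOneSpectrum (𝓞 L) | FinitePlace.mk v y < 1}.Finite := by
  refine (HeightOneSpectrum.Support.finite (R := 𝓞 L) y⁻¹).subset ?_
  intro v hv
  have h1 : v.valuation L y < 1 := (mk_lt_one v y).1 hv
  show 1 < v.valuation L y⁻¹
  rw [map_inv₀]
  exact (one_lt_inv₀ (by
    rw [zero_lt_iff, Ne, map_eq_zero]
    exact hy)).2 h1

theorem meets_finite {k A : Type} [Field k] [CommRing A] [Algebra k A] [Algebra k[X] A]
    (D : Finset (HeightOneSpectrum A)) (Y : HeightOneSpectrum A → Finset A)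
    (hY : ∀ 𝔭 ∈ D, Ideal.span (Y 𝔭 : Set A) = 𝔭.asIdeal) {q : ℕ} (a : Fin q → k)
    (hD : ∀ 𝔭 ∈ D, ∃ j, coord k A - algebraMap k A (a j) ∈ 𝔭.asIdeal)
    {L : Type} [Field L] [NumberField L] [Algebra k L] (φ : A →ₐ[k] L)
    (ha : ∀ j, φ (coord k A) ≠ algebraMap k L (a j)) :
    {w : HeightOneSpectrum (𝓞 L) | Meets D Y φ w}.Finite := by
  classical
  have h1 : ∀ 𝔭 ∈ D, ∃ y ∈ Y 𝔭, φ y ≠ 0 := by
    intro 𝔭 h𝔭
    by_contra hcon
    push Not at hcon
    obtain ⟨j, hj⟩ := hD 𝔭 h𝔭
    have h2 : 𝔭.asIdeal ≤ RingHom.ker φ := by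
      rw [← hY 𝔭 h𝔭, Ideal.span_le]
      intro y hy
      exact hcon y hy
    have h3 : φ (coord k A - algebraMap k A (a j)) = 0 := h2 hj
    rw [map_sub, AlgHom.commutes, sub_eq_zero] at h3
    exact ha j h3
  refine (Set.Finite.biUnion D.finite_toSet fun 𝔭 _ => Set.Finite.biUnion
    ((Y 𝔭).filter fun y => φ y ≠ 0).finite_toSet fun y hy => val_finite (φ y) ?_).subset ?_
  · exact (Finset.mem_filter.1 (Finset.mem_coe.1 hy)).2
  · rintro w ⟨-, 𝔭, h𝔭, hw⟩
    obtain ⟨y, hy, hy0⟩ := h1 𝔭 h𝔭
    simp only [Set.mem_iUnion]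
    exact ⟨𝔭, h𝔭, y, by simp [hy, hy0], hw y hy⟩

/-- the tuples in terms of the heights used in the proof -/
theorem tuples_eq {K : Type} [Field K] [NumberField K] {m : ℕ} (r : Fin m → ℕ)
    (hr : ∀ i, 1 ≤ r i) (B : ℝ) : Tuples K r B =
      {P | Pool.Agent.N753.DR.HT r (finrank ℚ K * Real.log B) P} := by
  have hd0 : (0 : ℝ) < finrank ℚ K := by exact_mod_cast finrank_pos
  have key : ∀ (L : Type) [Field L] [NumberField L] (x : L),
      height x ≤ Real.log B ↔ finrank ℚ K * Height.logHeight₁ x ≤
        finrank ℚ K * Real.log B * finrank ℚ L := by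
    intro L _ _ x
    have hL0 : (0 : ℝ) < finrank ℚ L := by exact_mod_cast finrank_pos
    unfold height
    rw [div_le_iff₀ hL0, mul_assoc, mul_le_mul_iff_right₀ hd0]
  ext P
  refine forall_congr' fun i => ⟨?_, ?_⟩
  · rintro ⟨L, _, _, _, x, h1, h2, h3⟩
    rw [← h1] at h2 ⊢
    rw [Pool.Agent.V8H31.PC.atH_iff (hr i) x h2]
    exact (key L x).1 h3
  · rintro ⟨L, iF, iN, iA, x, h1, h2, h3, h4⟩
    refine ⟨L, iF, iN, iA, x, h3, by rw [← h3]; exact h2, ?_⟩
    rw [key, ← Pool.Agent.V8H31.PC.atH_iff (hr i) x h2]
    exact ⟨L, iF, iN, iA, x, h1, h2, rfl, h4⟩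

/-- **One exceptional set for all products of curves, points of given degrees.** Let `K` be a number
field of degree `d`, `m ≥ 1`, `r_1, …, r_m ≥ 1`. The number of the tuples of closed points of the
line over `K` of degrees `r_1, …, r_m` and absolute heights at most `B` has the order of magnitude
`B ^ (d ∑ r_i (r_i + 1))`. There is ONE set `E` of such tuples, with at most
`C B ^ (d ∑ r_i (r_i + 1)) exp (- √ log B)` elements of heights at most `B`, with the following
property.

Let `k` be any number field containing `K`. For `i = 1, …, m` let `A_i` be a Dedekind domain, finite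
over `k[t]` and containing it (the ring of functions of a smooth affine curve over `k` which is
finite over the `t`-line), of rank `N_i`. For `i = 1, …, m` let `a_{i 1}, …, a_{i q_i}` be distinct
elements of `k` of degree at most `3 r_i + 2` over `K`, let `D_i` be a finite set of closed points
(maximal ideals) above the `a_{i j}` and let `s_{i j}` be the degree over `k` of the sum of the points
above `a_{i j}` which are not in `D_i`. Let `G ≠ 0` be a polynomial over `k` in `m` variables, `S'` a
finite set of primes of `k`, `M ≥ 0` and `ε > 0`. Then there is a constant `C` such that for all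
number fields `L ⊇ k`, all points `P = (φ_i)` over `L` of the product of the curves for which
`x_i = t_i(P)` has degree `r_i` over `K` for all `i`, `x_i ≠ a_{i j}`, `G(x) ≠ 0`, and the tuple of
the closed points of the `x_i` is not in `E`, and all finite sets `S` of primes
`∑_i (∑_j (1 - s_{i j} / N_i) - ε) h(x_i) + M m_{S'}(G, x) ≤
  N_S^(1)(D, P) + d(L) + ∑_{p ∈ S} log p + C`. -/
theorem result (K : Type) [Field K] [NumberField K] (m : ℕ) (hm : 0 < m) (r : Fin m → ℕ)
    (hr : ∀ i, 1 ≤ r i) :
    -- the number of all tuples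
    (∃ c C B₀ : ℝ, 0 < c ∧ ∀ B : ℝ, B₀ ≤ B → (Tuples K r B).Finite ∧
      c * B ^ (finrank ℚ K * ∑ i, r i * (r i + 1)) ≤ ((Tuples K r B).ncard : ℝ) ∧
      ((Tuples K r B).ncard : ℝ) ≤ C * B ^ (finrank ℚ K * ∑ i, r i * (r i + 1))) ∧
    -- the exceptional set
    ∃ E : Set (Fin m → K[X]),
      (∃ C : ℝ, ∀ B : ℝ, 1 ≤ B → ((E ∩ Tuples K r B).ncard : ℝ) ≤
        C * B ^ (finrank ℚ K * ∑ i, r i * (r i + 1)) * Real.exp (-√(Real.log B))) ∧
      -- all curves over all number fields
      ∀ (k : Type) [Field k] [NumberField k] [Algebra K k] (A : Fin m → Type)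
        [∀ i, CommRing (A i)] [∀ i, IsDedekindDomain (A i)] [∀ i, Algebra k (A i)]
        [∀ i, Algebra k[X] (A i)] [∀ i, IsScalarTower k k[X] (A i)]
        [∀ i, Module.Finite k[X] (A i)] [∀ i, FaithfulSMul k[X] (A i)]
        -- all divisors
        (q : Fin m → ℕ) (a : ∀ i, Fin (q i) → k), (∀ i, Function.Injective (a i)) →
        (∀ i j, (minpoly K (a i j)).natDegree ≤ 3 * r i + 2) →
        ∀ (D : ∀ i, Finset (HeightOneSpectrum (A i)))
          (Y : ∀ i, HeightOneSpectrum (A i) → Finset (A i)),
        (∀ i, ∀ 𝔭 ∈ D i, ∃ j, coord k (A i) - algebraMap k (A i) (a i j) ∈ 𝔭.asIdeal) →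
        (∀ i, ∀ 𝔭 ∈ D i, Ideal.span (Y i 𝔭 : Set (A i)) = 𝔭.asIdeal) →
        -- all proximity functions
        ∀ (G : MvPolynomial (Fin m) k), G ≠ 0 → ∀ (S' : Finset (HeightOneSpectrum (𝓞 k)))
          (M ε : ℝ), 0 ≤ M → 0 < ε →
        ∃ C : ℝ, ∀ (L : Type) [Field L] [NumberField L] [Algebra K L] [Algebra k L]
          [IsScalarTower K k L] (φ : ∀ i, A i →ₐ[k] L),
          (∀ i, (minpoly K (φ i (coord k (A i)))).natDegree = r i) →
          (fun i => minpoly K (φ i (coord k (A i)))) ∉ E →
          (∀ i j, φ i (coord k (A i)) ≠ algebraMap k L (a i j)) →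
          MvPolynomial.aeval (fun i => φ i (coord k (A i))) G ≠ 0 →
          ∀ S : Finset ℕ, (∀ p ∈ S, p.Prime) →
            ∑ i, (∑ j, (1 - rest (A i) (D i) (a i j) / finrank k[X] (A i)) - ε) *
                height (φ i (coord k (A i))) +
              M * proximity S' G (fun i => φ i (coord k (A i))) ≤
            truncated S D Y φ + logDisc L + ∑ p ∈ S, Real.log p + C := by
  classical
  obtain ⟨E, ⟨CE, hCE, hE⟩, hmain⟩ := Pool.Agent.V8H31.PC.core K hm r hr
  obtain ⟨d, hd⟩ : ∃ d : ℝ, d = (finrank ℚ K : ℝ) := ⟨_, rfl⟩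
  have hd1 : 1 ≤ d := by
    rw [hd]
    exact_mod_cast (finrank_pos : 0 < finrank ℚ K)
  have hpow : ∀ B : ℝ, 0 < B → Real.exp (Pool.Agent.V8H31.PC.DD r * (d * Real.log B)) =
      B ^ (finrank ℚ K * ∑ i, r i * (r i + 1)) := by
    intro B hB
    rw [← Real.rpow_natCast, Real.rpow_def_of_pos hB]
    congr 1
    unfold Pool.Agent.V8H31.PC.DD
    rw [hd]
    push_cast
    ring
  refine ⟨?_, E, ⟨CE, fun B hB => ?_⟩, ?_⟩
  · obtain ⟨C, hC, hup⟩ := Pool.Agent.V8H31.PC.ht_count (K := K) r hr
    obtain ⟨c, T₀, hc, hlow⟩ := Pool.Agent.V8H31.PC.ht_low (K := K) r hr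
    refine ⟨c, C, Real.exp (|T₀|), hc, fun B hB => ?_⟩
    have hB0 : 0 < B := (Real.exp_pos _).trans_le hB
    have h1 : |T₀| ≤ Real.log B := by
      rw [Real.le_log_iff_exp_le hB0]
      exact hB
    have h0 : 0 ≤ Real.log B := (abs_nonneg _).trans h1
    have h2 : 0 ≤ d * Real.log B := by positivity
    have h3 : T₀ ≤ d * Real.log B := by
      have := le_abs_self T₀
      nlinarith
    rw [tuples_eq r hr, ← hd]
    have h4 := hup _ h2
    have h5 := hlow _ h3
    rw [hpow B hB0] at h4 h5
    exact ⟨h4.1, h5, h4.2⟩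
  · have hB0 : 0 < B := by linarith
    have h0 : 0 ≤ Real.log B := Real.log_nonneg hB
    have h2 : 0 ≤ d * Real.log B := by positivity
    have h3 : E ∩ Tuples K r B = {P | P ∈ E ∧ Pool.Agent.N753.DR.HT r (d * Real.log B) P} := by
      rw [tuples_eq r hr, ← hd]
      rfl
    rw [h3]
    refine (hE _ h2).2.trans ?_
    rw [sub_eq_add_neg, Real.exp_add, hpow B hB0, ← mul_assoc]
    refine mul_le_mul_of_nonneg_left (Real.exp_le_exp.2 (neg_le_neg (Real.sqrt_le_sqrt ?_)))
      (by positivity)
    nlinarith
  intro k _ _ _ A _ _ _ _ _ _ _ q a ha hdeg D Y hD hY G hG S' M ε hM hε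
  obtain ⟨C, hC, h1⟩ := hmain k A q a ha hdeg D Y
    (fun i 𝔭 h𝔭 => by rw [← hY i 𝔭 h𝔭]; exact Ideal.subset_span) G hG S' M ε hM hε
  refine ⟨C, ?_⟩
  intro L _ _ _ _ _ φ hφ hφE hφa hφG S hS
  have hL0 : (0 : ℝ) < finrank ℚ L := by exact_mod_cast finrank_pos
  -- the primes at which the point meets the divisor
  have hfin : {w : HeightOneSpectrum (𝓞 L) | ∃ i, Meets (D i) (Y i) (φ i) w}.Finite := by
    have h2 : {w : HeightOneSpectrum (𝓞 L) | ∃ i, Meets (D i) (Y i) (φ i) w} =
        ⋃ i, {w : HeightOneSpectrum (𝓞 L) | Meets (D i) (Y i) (φ i) w} := by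
      ext w
      simp
    rw [h2]
    exact Set.finite_iUnion fun i => meets_finite (D i) (Y i) (hY i) (a i) (hD i) (φ i) (hφa i)
  have k1 := h1 L φ hφ hφE hφa hφG hfin.toFinset (by
    rintro u i hu ⟨𝔭, h𝔭, hy⟩
    rw [Set.Finite.mem_toFinset]
    exact ⟨i, (mk_le_one u _).2 hu, 𝔭, h𝔭, fun y hyy => (mk_lt_one u _).2 (hy y hyy)⟩)
  have e1 : truncated S D Y φ = (∑ w ∈ hfin.toFinset, if Outside S w then
      Real.log (Ideal.absNorm w.asIdeal : ℝ) else 0) / finrank ℚ L := by
    unfold truncated
    congr 1
    rw [finsum_eq_sum_of_support_subset (s := hfin.toFinset)]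
    · refine Finset.sum_congr rfl fun w hw => ?_
      have hw1 : ∃ i, Meets (D i) (Y i) (φ i) w := (Set.Finite.mem_toFinset hfin).1 hw
      exact if_congr ⟨fun h => h.1, fun h => ⟨h, hw1⟩⟩ rfl rfl
    · intro w hw
      rw [Finset.mem_coe, Set.Finite.mem_toFinset]
      by_contra hc
      exact hw (if_neg fun h => hc h.2)
  have h3 := Pool.Agent.N752.HY.Ext.sum_above (L := L) S hS
    (hfin.toFinset.filter fun v => ¬ Outside S v) fun v hv => (Finset.mem_filter.1 hv).2
  rw [Finset.sum_filter] at h3
  have k2 : (∑ u ∈ hfin.toFinset, Pool.Agent.N753.DR.lN u) / finrank ℚ L ≤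
      truncated S D Y φ + ∑ p ∈ S, Real.log (p : ℝ) := by
    rw [e1, div_add' _ _ _ hL0.ne']
    refine div_le_div_of_nonneg_right ?_ hL0.le
    rw [mul_comm (∑ p ∈ S, Real.log (p : ℝ))]
    refine le_trans ?_ (add_le_add (le_refl _) h3)
    rw [← Finset.sum_add_distrib]
    refine Finset.sum_le_sum fun v _ => ?_
    unfold Pool.Agent.N753.DR.lN
    by_cases h : Outside S v
    · rw [if_pos h, if_neg (not_not.2 h), add_zero]
    · rw [if_neg h, if_pos h, zero_add]
  have k3 := div_le_div_of_nonneg_right k1 hL0.le
  have e2 : (∑ i, (∑ j, (1 - rest (A i) (D i) (a i j) / finrank k[X] (A i)) - ε) *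
        Height.logHeight₁ (φ i (coord k (A i))) +
      M * (finrank ℚ L * proximity S' G (fun i => φ i (coord k (A i))))) / finrank ℚ L =
      ∑ i, (∑ j, (1 - rest (A i) (D i) (a i j) / finrank k[X] (A i)) - ε) *
          height (φ i (coord k (A i))) + M * proximity S' G (fun i => φ i (coord k (A i))) := by
    rw [add_div, Finset.sum_div]
    congr 1
    · refine Finset.sum_congr rfl fun i _ => ?_
      unfold height
      rw [mul_div_assoc]
    · field_simp
  rw [← e2]
  have e3 : (finrank ℚ L : ℝ) * proximity S' G (fun i => φ i (coord k (A i))) =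
      Pool.Agent.N753.DR.prZ (fun v : HeightOneSpectrum (𝓞 L) => ∃ p ∈ S',
        v.asIdeal.comap (algebraMap (𝓞 k) (𝓞 L)) = p.asIdeal) (fun i => G.degreeOf i)
        (fun i => φ i (coord k (A i)))
        (MvPolynomial.aeval (fun i => φ i (coord k (A i))) G) := by
    unfold proximity Pool.Agent.N753.DR.prZ
    rw [mul_div_cancel₀ _ hL0.ne']
    refine congrArg₂ _ rfl (finsum_congr fun v => ?_)
    by_cases hv : ∃ p ∈ S', v.asIdeal.comap (algebraMap (𝓞 k) (𝓞 L)) = p.asIdeal
    · rw [if_pos hv, if_pos hv]
      rfl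
    · rw [if_neg hv, if_neg hv]
  rw [e3]
  refine k3.trans ?_
  have e4 : (∑ u ∈ hfin.toFinset, Pool.Agent.N753.DR.lN u + Real.log |(discr L : ℝ)| +
      finrank ℚ L * C) / finrank ℚ L =
      (∑ u ∈ hfin.toFinset, Pool.Agent.N753.DR.lN u) / finrank ℚ L + logDisc L + C := by
    unfold logDisc
    field_simp
  rw [e4]
  linarith

end Pool.Agent.Results.MP_71c16a_nt.ProductsOfCurvesBoundedDegree
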